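import Mathlib

/-!
# MP_ad0c0d_al : the counts of circulant matrices of given determinant over a finite chain ring
are not invariant under multiplication of the determinant by a unit

Over the chain ring `R = 𝔽₂[γ]/(γ²)` (nilpotency index `2`) every `2 × 2` circulant determinant
is a square `a² + b² = (a + b)²`, hence lies in `{0, 1}`; so `c₂(R, 1) = 8` while
`c₂(R, 1 + γ) = 0`.
-/

namespace Pool.Agent.Results.MP_ad0c0d_al.UnitInvarianceFails

/-- The circulant matrix `cir(a₁, …, aₙ)`: its first row is `v 0, v 1, …, v (n-1)` and each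
subsequent row is the cyclic shift of the previous one by one place to the right. -/
def cir {R : Type} {n : ℕ} (v : Fin n → R) : Matrix (Fin n) (Fin n) R :=
  Matrix.of fun i j => v (j - i)

/-- `count n R a`: the number of `n × n` circulant matrices over `R` (counted by their first row)
with determinant `a`. -/
noncomputable def count (n : ℕ) (R : Type) [CommRing R] (a : R) : ℕ :=
  Nat.card {v : Fin n → R // (cir v).det = a}

/-- `IsChainRing R`: the commutative ring `R` is a finite chain ring, that is, it is finite,
`1 ≠ 0` and the ideals are totally ordered by inclusion. -/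
structure IsChainRing (R : Type) [CommRing R] : Prop where
  fin : Finite R
  one_ne_zero : (1 : R) ≠ 0
  total : ∀ I J : Ideal R, I ≤ J ∨ J ≤ I

/-- `γ` generates the unique maximal ideal of `R`, and `e` is the nilpotency index of `R`: the
least positive integer with `γ ^ e = 0`. -/
structure IsUniformizer (R : Type) [CommRing R] (γ : R) (e : ℕ) : Prop where
  maximal : (Ideal.span {γ}).IsMaximal
  pos : 1 ≤ e
  pow_eq : γ ^ e = 0
  least : ∀ k : ℕ, 1 ≤ k → γ ^ k = 0 → e ≤ k

/-- The chain ring `𝔽₂[γ]/(γ²)`, realised as the dual numbers over `ZMod 2`. -/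
abbrev K : Type := TrivSqZeroExt (ZMod 2) (ZMod 2)

instance : DecidableEq K := inferInstanceAs (DecidableEq (ZMod 2 × ZMod 2))
instance : Fintype K := inferInstanceAs (Fintype (ZMod 2 × ZMod 2))

/-- The uniformizer of `K`. -/
def g : K := (0, 1)

theorem unit_or (x : K) : x = 0 ∨ x = g ∨ ∃ y : K, x * y = 1 := by
  revert x; decide

theorem g_ne : g ≠ 0 := by decide

theorem g_sq : g ^ 2 = 0 := by decide

theorem ideal_cases (I : Ideal K) : I = ⊥ ∨ I = Ideal.span {g} ∨ I = ⊤ := by
  by_cases h1 : ∃ x ∈ I, ∃ y : K, x * y = 1
  · obtain ⟨x, hx, y, hy⟩ := h1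
    right; right
    rw [Ideal.eq_top_iff_one, ← hy]
    exact I.mul_mem_right y hx
  · push Not at h1
    by_cases hg : g ∈ I
    · right; left
      apply le_antisymm
      · intro x hx
        rcases unit_or x with h | h | ⟨y, hy⟩
        · rw [h]; exact zero_mem _
        · rw [h]; exact Ideal.mem_span_singleton_self g
        · exact absurd hy (h1 x hx y)
      · rw [Ideal.span_le]
        simpa using hg
    · left
      rw [eq_bot_iff]
      intro x hx
      rcases unit_or x with h | h | ⟨y, hy⟩
      · rw [h]; exact zero_mem _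
      · rw [h] at hx; exact absurd hx hg
      · exact absurd hy (h1 x hx y)

theorem span_g_ne_top : Ideal.span {g} ≠ ⊤ := by
  intro h
  rw [Ideal.eq_top_iff_one, Ideal.mem_span_singleton'] at h
  obtain ⟨a, ha⟩ := h
  revert a
  decide

theorem chain : IsChainRing K where
  fin := inferInstance
  one_ne_zero := by decide
  total := by
    intro I J
    rcases ideal_cases I with rfl | rfl | rfl
    · left; exact bot_le
    · rcases ideal_cases J with rfl | rfl | rfl
      · right; exact bot_le
      · left; exact le_rfl
      · left; exact le_top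
    · right; exact le_top

theorem unif : IsUniformizer K g 2 where
  maximal := by
    constructor
    constructor
    · exact span_g_ne_top
    · intro J hJ
      rcases ideal_cases J with rfl | rfl | rfl
      · exact absurd hJ (not_lt_bot)
      · exact absurd hJ (lt_irrefl _)
      · rfl
  pos := by norm_num
  pow_eq := g_sq
  least := by
    intro k hk h
    by_contra hlt
    have : k = 1 := by omega
    rw [this, pow_one] at h
    exact g_ne h

theorem det_cir (v : Fin 2 → K) : (cir v).det = (v 0 + v 1) ^ 2 := by
  rw [Matrix.det_fin_two]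
  have h2 : ∀ x : K, -x = x := by decide
  have h3 : ∀ x : K, x + x = 0 := by decide
  have e1 : cir v 0 0 = v 0 := rfl
  have e2 : cir v 1 1 = v 0 := rfl
  have e3 : cir v 0 1 = v 1 := rfl
  have e4 : cir v 1 0 = v 1 := rfl
  rw [e1, e2, e3, e4, sub_eq_add_neg, h2]
  have : (v 0 + v 1) ^ 2 = v 0 * v 0 + v 1 * v 1 + (v 0 * v 1 + v 0 * v 1) := by ring
  rw [this, h3, add_zero]

/-- The unit `1 + γ`. -/
def u : Kˣ := ⟨1 + g, 1 + g, by decide, by decide⟩

theorem count_one : count 2 K 1 = 8 := by
  unfold count
  have e : {v : Fin 2 → K // (cir v).det = 1} ≃ {v : Fin 2 → K // (v 0 + v 1) ^ 2 = 1} :=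
    Equiv.subtypeEquivRight fun v => by rw [det_cir]
  have e2 : {v : Fin 2 → K // (v 0 + v 1) ^ 2 = 1} ≃
      {p : K × K // (p.1 + p.2) ^ 2 = 1} :=
    Equiv.subtypeEquiv (finTwoArrowEquiv K) fun v => by rfl
  rw [Nat.card_congr (e.trans e2), Nat.card_eq_fintype_card]
  decide

theorem count_u : count 2 K (u * 1) = 0 := by
  unfold count
  rw [Nat.card_eq_zero]
  left
  constructor
  rintro ⟨v, hv⟩
  rw [det_cir] at hv
  generalize v 0 + v 1 = x at hv
  revert x
  decide

/-- **Disproof of the unit invariance of the circulant determinant counts.** There are a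
finite commutative chain ring `R` of nilpotency index `e = 2`, a generator `γ` of its maximal
ideal and a unit `b` with `c₂(R, γ⁰) = 8` and `c₂(R, b γ⁰) = 0`; in particular it is not true
that `c_n(R, γ^s) = c_n(R, b γ^s)` for all finite chain rings `R` (with nilpotency index `e`),
all generators `γ` of the maximal ideal, all `n ≥ 1`, all units `b` and all `0 ≤ s ≤ e`. -/
theorem result :
    (∃ (R : Type) (_ : CommRing R) (γ : R) (b : Rˣ), IsChainRing R ∧ IsUniformizer R γ 2 ∧
      count 2 R (γ ^ 0) = 8 ∧ count 2 R (b * γ ^ 0) = 0) ∧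
    ¬ ∀ (R : Type) [CommRing R], IsChainRing R → ∀ (γ : R) (e : ℕ), IsUniformizer R γ e →
      ∀ n : ℕ, 1 ≤ n → ∀ (b : Rˣ) (s : ℕ), s ≤ e →
        count n R (γ ^ s) = count n R (b * γ ^ s) := by
  constructor
  · exact ⟨K, inferInstance, g, u, chain, unif, by rw [pow_zero]; exact count_one,
      by rw [pow_zero]; exact count_u⟩
  · intro h
    have := h K chain g 2 unif 2 (by norm_num) u 0 (by norm_num)
    rw [pow_zero, count_one, count_u] at this
    exact absurd this (by norm_num)

end Pool.Agent.Results.MP_ad0c0d_al.UnitInvarianceFails
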